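import Mathlib
import Pool.Agent.N524.Szem

/-! # Finite Szemerédi theorem for initial segments of the natural numbers -/

set_option autoImplicit false

namespace Run7.h605.AKD

open Finset

theorem szem (m : ℕ) (δ : ℝ) (hδ : 0 < δ) : ∃ N0 : ℕ, ∀ N : ℕ, N0 ≤ N → ∀ E : Finset ℕ,
    E ⊆ range N → δ * N ≤ #E → ∃ a j : ℕ, 1 ≤ j ∧ ∀ i ≤ m, a + i * j ∈ E := by
  classical
  obtain ⟨s0, hs0⟩ := Pool.Agent.N524.szem_abs (G := ℤ) (fun s => Icc (-(s : ℤ)) s) 2 (by norm_num)
    (by
      intro s t hst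
      refine Icc_subset_Icc ?_ ?_
      · have : (s : ℤ) ≤ t := by exact_mod_cast hst
        linarith
      · exact_mod_cast hst)
    (by
      intro v
      refine ⟨v.natAbs, fun s u hu => ?_⟩
      rw [mem_Icc] at hu ⊢
      push_cast
      have h1 := abs_le.1 (le_of_eq (Int.natCast_natAbs v).symm)
      constructor
      · have := hu.1; have := neg_abs_le v; have := le_abs_self v; omega
      · have := hu.2; have := neg_abs_le v; have := le_abs_self v; omega)
    (by
      intro K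
      refine ⟨K, fun s hs => ?_⟩
      rw [Int.card_Icc, Int.card_Icc]
      have h1 : ((((s + K : ℕ) : ℤ) + 1 - -((s + K : ℕ) : ℤ)).toNat : ℝ) = 2 * ((s : ℝ) + K) + 1 := by
        have : (((s + K : ℕ) : ℤ) + 1 - -((s + K : ℕ) : ℤ)).toNat = 2 * (s + K) + 1 := by omega
        rw [this]; push_cast; ring
      have h2 : (((s : ℤ) + 1 - -(s : ℤ)).toNat : ℝ) = 2 * (s : ℝ) + 1 := by
        have : ((s : ℤ) + 1 - -(s : ℤ)).toNat = 2 * s + 1 := by omega
        rw [this]; push_cast; ring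
      rw [h1, h2]
      have : (K : ℝ) ≤ s := by exact_mod_cast hs
      linarith)
    (by intro s; exact ⟨0, by simp⟩)
    ((range (m + 1)).image fun i : ℕ => (i : ℤ)) (δ / 3) (by positivity)
  refine ⟨max s0 1, fun N hN E hE hc => ?_⟩
  have hN1 : 1 ≤ N := (le_max_right _ _).trans hN
  have hcard : #(E.image fun i : ℕ => (i : ℤ)) = #E :=
    card_image_of_injective _ Nat.cast_injective
  obtain ⟨a, j, hj, h⟩ := hs0 N ((le_max_left _ _).trans hN) (E.image fun i : ℕ => (i : ℤ))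
    (by
      intro x hx
      obtain ⟨i, hi, rfl⟩ := mem_image.1 hx
      have := mem_range.1 (hE hi)
      rw [mem_Icc]
      omega)
    (by
      rw [hcard]
      refine le_trans ?_ hc
      rw [Int.card_Icc]
      have h2 : ((((N : ℕ) : ℤ) + 1 - -((N : ℕ) : ℤ)).toNat : ℝ) = 2 * (N : ℝ) + 1 := by
        have : (((N : ℕ) : ℤ) + 1 - -((N : ℕ) : ℤ)).toNat = 2 * N + 1 := by omega
        rw [this]; push_cast; ring
      rw [h2]
      have : (1 : ℝ) ≤ N := by exact_mod_cast hN1
      have h3 : δ / 3 * (2 * (N : ℝ) + 1) ≤ δ / 3 * (3 * N) := by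
        refine mul_le_mul_of_nonneg_left ?_ (by positivity)
        linarith
      linarith)
  have h0 := h ((0 : ℕ) : ℤ) (mem_image.2 ⟨0, mem_range.2 (by omega), rfl⟩)
  rw [Nat.cast_zero, smul_zero, add_zero] at h0
  obtain ⟨b, hb, rfl⟩ := mem_image.1 h0
  refine ⟨b, j, hj, fun i hi => ?_⟩
  have h1 := h (i : ℤ) (mem_image.2 ⟨i, mem_range.2 (by omega), rfl⟩)
  obtain ⟨c, hc1, hc2⟩ := mem_image.1 h1
  have : c = b + i * j := by
    rw [nsmul_eq_mul] at hc2
    have h3 : (c : ℤ) = ((b + i * j : ℕ) : ℤ) := by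
      rw [hc2]; push_cast; ring
    exact_mod_cast h3
  rwa [this] at hc1

end Run7.h605.AKD
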