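import Mathlib
import Pool.Agent.R470.AK.Part
import Pool.Agent.W46.KK.Core
import Pool.Agent.Run7.h605.AKD.Szem

/-! # The robust form of the arithmetic Kakeya inequality -/

set_option autoImplicit false

namespace Run7.h605.AKD

open Finset
open Pool.Agent.R470.AK (proj projInf big Bound tm proj_tm int_points fit)

/-- few points of an injective family can have a proportion `δ` of their projections in small sets -/
def Robust (δ : ℝ) (S : Finset ℚ) (κ C : ℝ) : Prop :=
  ∀ (A : Finset (ℤ × ℤ)) (G : ℚ → Finset ℚ) (M : ℕ),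
    Set.InjOn (fun p : ℤ × ℤ => p.1 - p.2) (A : Set (ℤ × ℤ)) →
    (∀ r ∈ S, (G r).card ≤ M) →
    δ * ((A.card : ℝ) * (S.card : ℝ)) ≤
      (((A ×ˢ S).filter fun q : (ℤ × ℤ) × ℚ =>
        (q.1.1 : ℚ) + q.2 * (q.1.2 : ℚ) ∈ G q.2).card : ℝ) →
    (A.card : ℝ) ≤ C * (M : ℝ) ^ κ

/-- transfer to slopes which contain an affine image in the coordinate `1 / (r + 1)` -/
lemma transfer_sup {S₀ S : Finset ℚ} {κ : ℝ} (hκ : 0 ≤ κ) (h0 : (-1 : ℚ) ∉ S₀) (h : Bound S₀ κ)
    (a b : ℚ) (hb : b ≠ 0) (hinf : ∃ r ∈ S, r + 1 ≠ 0 ∧ tm r = a)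
    (hS : ∀ r₀ ∈ S₀, ∃ r ∈ S, r + 1 ≠ 0 ∧ tm r = a + b * tm r₀) (A : Finset (ℤ × ℤ)) :
    ((proj (-1) A).card : ℝ) ≤ ((S.sup fun r => (proj r A).card : ℕ) : ℝ) ^ κ := by
  classical
  -- the transformed points
  set B : Finset (ℚ × ℚ) := A.image fun p : ℤ × ℤ => ((p.1 : ℚ), (p.2 : ℚ)) with hB
  set B' : Finset (ℚ × ℚ) := B.image fun p => (p.2 + a * (p.1 - p.2) + b * (p.1 - p.2),
    p.2 + a * (p.1 - p.2)) with hB'
  obtain ⟨A', -, hA1, hA2⟩ := int_points B'
  have hpB : ∀ r : ℚ, (proj r A) = B.image fun p => p.1 + r * p.2 := by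
    intro r
    rw [hB, image_image]
    rfl
  have hdir : ∀ r₀ r : ℚ, r₀ + 1 ≠ 0 → r + 1 ≠ 0 → tm r = a + b * tm r₀ →
      (proj r₀ A').card = (proj r A).card := by
    intro r₀ r h1 h2 h3
    rw [hA1, proj_tm h1, hpB, proj_tm h2, hB', image_image]
    congr 1
    refine image_congr fun p _ => ?_
    simp only [Function.comp, h3]
    ring
  have hm1 : (proj (-1) A').card = (proj (-1) A).card := by
    rw [hA1, hpB]
    have e : (B'.image fun p : ℚ × ℚ => p.1 + (-1) * p.2) =
        (B.image fun p : ℚ × ℚ => p.1 + (-1) * p.2).image fun x : ℚ => b * x := by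
      ext w
      simp only [hB', mem_image]
      constructor
      · rintro ⟨_, ⟨p, hp, rfl⟩, rfl⟩
        exact ⟨_, ⟨p, hp, rfl⟩, by ring⟩
      · rintro ⟨_, ⟨p, hp, rfl⟩, rfl⟩
        exact ⟨_, ⟨p, hp, rfl⟩, by ring⟩
    have hinj : Function.Injective fun x : ℚ => b * x := fun x y h => mul_left_cancel₀ hb h
    rw [e, card_image_of_injective _ hinj]
  have hle : ∀ r ∈ S, (proj r A).card ≤ S.sup fun r => (proj r A).card :=
    fun r hr => le_sup (f := fun r => (proj r A).card) hr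
  have hbig : big S₀ A' ≤ S.sup fun r => (proj r A).card := by
    unfold big
    refine max_le ?_ (Finset.sup_le fun r₀ hr₀ => ?_)
    · obtain ⟨r, hrS, hr1, hr2⟩ := hinf
      have : (projInf A').card = (proj r A).card := by
        rw [hA2, hpB, proj_tm hr1, hB', image_image]
        congr 1
        refine image_congr fun p _ => ?_
        simp only [Function.comp, hr2]
      rw [this]
      exact hle r hrS
    · obtain ⟨r, hrS, hr1, hr2⟩ := hS r₀ hr₀
      have h1 : r₀ + 1 ≠ 0 := fun h2 => h0 (by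
        have : r₀ = -1 := by linarith
        rwa [this] at hr₀)
      rw [hdir r₀ r h1 hr1 hr2]
      exact hle r hrS
  have h2 := h A'
  rw [hm1] at h2
  exact h2.trans (Real.rpow_le_rpow (Nat.cast_nonneg _) (by exact_mod_cast hbig) hκ)

lemma proj_neg_one_card {A : Finset (ℤ × ℤ)}
    (hA : Set.InjOn (fun p : ℤ × ℤ => p.1 - p.2) (A : Set (ℤ × ℤ))) :
    (proj (-1) A).card = A.card := by
  classical
  unfold proj
  refine card_image_of_injOn ?_
  intro p hp q hq hpq
  refine hA hp hq ?_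
  have h1 : ((p.1 - p.2 : ℤ) : ℚ) = ((q.1 - q.2 : ℤ) : ℚ) := by
    push_cast
    simp only at hpq
    linarith
  exact_mod_cast h1

/-- Every attained exponent is attained robustly, with the slopes of any long progression. -/
theorem robust_of_bound {S₀ : Finset ℚ} {κ : ℝ} (hκ : 0 ≤ κ) (h0 : (-1 : ℚ) ∉ S₀)
    (h : Bound S₀ κ) {δ : ℝ} (hδ : 0 < δ) : ∃ L₀ : ℕ, 1 ≤ L₀ ∧ ∀ L : ℕ, L₀ ≤ L →
      ∀ (f : ℕ → ℚ) (a b : ℚ), b ≠ 0 → (∀ j < L, f j + 1 ≠ 0 ∧ tm (f j) = a + b * j) →
        Robust δ ((range L).image f) κ (2 / δ * (L : ℝ) ^ 2) := by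
  classical
  obtain ⟨k, q, p, hq, hpk, hfit⟩ := fit S₀
  obtain ⟨N0, hN0⟩ := szem (k + 1) (δ / 2) (by positivity)
  refine ⟨max N0 1, le_max_right _ _, fun L hL f a b hb hf A G M hinj hG hcount => ?_⟩
  have hL0 : N0 ≤ L := (le_max_left _ _).trans hL
  have hL1 : 1 ≤ L := (le_max_right _ _).trans hL
  have hLr : (1 : ℝ) ≤ L := by exact_mod_cast hL1
  have hfinj : Set.InjOn f ((range L : Finset ℕ) : Set ℕ) := by
    intro i hi j hj hij
    rw [mem_coe, mem_range] at hi hj
    have h1 := (hf i hi).2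
    have h2 := (hf j hj).2
    rw [hij, h2] at h1
    have h3 : b * ((j : ℚ) - i) = 0 := by linarith
    rcases mul_eq_zero.1 h3 with h4 | h4
    · exact absurd h4 hb
    · have : (j : ℚ) = i := by linarith
      exact_mod_cast this.symm
  have hScard : ((range L).image f).card = L := by
    rw [card_image_of_injOn hfinj, card_range]
  set E : ℤ × ℤ → Finset ℕ := fun z => (range L).filter fun j =>
    (z.1 : ℚ) + f j * (z.2 : ℚ) ∈ G (f j) with hE
  have hcount2 : ((A ×ˢ ((range L).image f)).filter fun w : (ℤ × ℤ) × ℚ =>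
        (w.1.1 : ℚ) + w.2 * (w.1.2 : ℚ) ∈ G w.2).card = ∑ z ∈ A, (E z).card := by
    rw [card_filter, sum_product]
    refine sum_congr rfl fun z _ => ?_
    rw [sum_image hfinj, hE]
    simp only
    rw [card_filter]
  rw [hcount2, hScard] at hcount
  push_cast at hcount
  set A1 := A.filter fun z => δ / 2 * (L : ℝ) ≤ ((E z).card : ℝ) with hA1
  have hElt : ∀ z, ((E z).card : ℝ) ≤ L := by
    intro z
    have : (E z).card ≤ (range L).card := card_filter_le _ _
    rw [card_range] at this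
    exact_mod_cast this
  have hsum : ∑ z ∈ A, ((E z).card : ℝ) ≤ (A1.card : ℝ) * L + (A.card : ℝ) * (δ / 2 * L) := by
    rw [← sum_filter_add_sum_filter_not A (fun z => δ / 2 * (L : ℝ) ≤ ((E z).card : ℝ))]
    refine add_le_add ?_ ?_
    · rw [← hA1]
      calc ∑ z ∈ A1, ((E z).card : ℝ) ≤ ∑ _z ∈ A1, (L : ℝ) := sum_le_sum fun z _ => hElt z
        _ = (A1.card : ℝ) * L := by rw [sum_const, nsmul_eq_mul]
    · calc ∑ z ∈ A.filter (fun z => ¬ δ / 2 * (L : ℝ) ≤ ((E z).card : ℝ)), ((E z).card : ℝ)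
          ≤ ∑ _z ∈ A.filter (fun z => ¬ δ / 2 * (L : ℝ) ≤ ((E z).card : ℝ)), (δ / 2 * (L : ℝ)) := by
            refine sum_le_sum fun z hz => ?_
            have := (mem_filter.1 hz).2
            linarith
        _ = ((A.filter (fun z => ¬ δ / 2 * (L : ℝ) ≤ ((E z).card : ℝ))).card : ℝ) * (δ / 2 * L) := by
            rw [sum_const, nsmul_eq_mul]
        _ ≤ (A.card : ℝ) * (δ / 2 * L) := by
            refine mul_le_mul_of_nonneg_right ?_ (by positivity)
            exact_mod_cast card_filter_le _ _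
  have hA1card : δ / 2 * (A.card : ℝ) ≤ A1.card := by
    have h1 : (A1.card : ℝ) * L ≥ (δ / 2 * (A.card : ℝ)) * L := by nlinarith
    exact le_of_mul_le_mul_right h1 (by linarith)
  -- the pieces
  set P : ℕ × ℕ → Finset (ℤ × ℤ) := fun u => A.filter fun z =>
    1 ≤ u.2 ∧ ∀ i ≤ k, u.1 + i * u.2 ∈ E z with hP
  have hcov : A1 ⊆ ((range L) ×ˢ (range L)).biUnion P := by
    intro z hz
    rw [hA1, mem_filter] at hz
    obtain ⟨u, j, hj, huj⟩ := hN0 L hL0 (E z) (filter_subset _ _) hz.2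
    have h1 := huj 0 (by omega)
    have h2 := huj 1 (by omega)
    have h1' := mem_range.1 (mem_filter.1 h1).1
    have h2' := mem_range.1 (mem_filter.1 h2).1
    rw [mem_biUnion]
    refine ⟨(u, j), mem_product.2 ⟨mem_range.2 ?_, mem_range.2 ?_⟩, ?_⟩
    · simp only; omega
    · simp only; omega
    · rw [hP, mem_filter]
      exact ⟨hz.1, hj, fun i hi => huj i (by omega)⟩
  have hMnn : (0 : ℝ) ≤ (M : ℝ) ^ κ := Real.rpow_nonneg (Nat.cast_nonneg _) _
  have hpiece : ∀ u : ℕ × ℕ, ((P u).card : ℝ) ≤ (M : ℝ) ^ κ := by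
    rintro ⟨u, j⟩
    rcases (P (u, j)).eq_empty_or_nonempty with he | ⟨z0, hz0⟩
    · rw [he, card_empty, Nat.cast_zero]
      exact hMnn
    · rw [hP, mem_filter] at hz0
      obtain ⟨hz0A, hj, hz0E⟩ := hz0
      simp only at hj hz0E
      have hlt : ∀ i ≤ k, u + i * j < L := fun i hi => mem_range.1 (mem_filter.1 (hz0E i hi)).1
      have hbj : b * (j : ℚ) ≠ 0 := by
        refine mul_ne_zero hb ?_
        have : (0 : ℚ) < j := by exact_mod_cast hj
        exact this.ne'
      have hPA : P (u, j) ⊆ A := filter_subset _ _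
      have key := transfer_sup (S := (range (k + 1)).image fun i => f (u + i * j)) hκ h0 h
        (a + b * u + b * j * p) (b * j * q) (mul_ne_zero hbj hq)
        (by
          refine ⟨f (u + p * j), mem_image.2 ⟨p, mem_range.2 (by omega), rfl⟩,
            (hf _ (hlt p hpk)).1, ?_⟩
          rw [(hf _ (hlt p hpk)).2]
          push_cast
          ring)
        (by
          intro r₀ hr₀
          obtain ⟨i, hik, hi⟩ := hfit r₀ hr₀
          refine ⟨f (u + i * j), mem_image.2 ⟨i, mem_range.2 (by omega), rfl⟩,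
            (hf _ (hlt i hik)).1, ?_⟩
          rw [(hf _ (hlt i hik)).2]
          push_cast
          rw [hi]
          ring) (P (u, j))
      rw [proj_neg_one_card (hinj.mono (by exact_mod_cast hPA))] at key
      refine key.trans (Real.rpow_le_rpow (Nat.cast_nonneg _) ?_ hκ)
      have : ((range (k + 1)).image fun i => f (u + i * j)).sup
          (fun r => (proj r (P (u, j))).card) ≤ M := by
        refine Finset.sup_le fun r hr => ?_
        obtain ⟨i, hi, rfl⟩ := mem_image.1 hr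
        have hik : i ≤ k := by have := mem_range.1 hi; omega
        refine le_trans (card_le_card ?_) (hG (f (u + i * j))
          (mem_image_of_mem f (mem_range.2 (hlt i hik))))
        intro w hw
        unfold proj at hw
        obtain ⟨z, hz, rfl⟩ := mem_image.1 hw
        exact (mem_filter.1 ((mem_filter.1 hz).2.2 i hik)).2
      exact_mod_cast this
  have hA1le : (A1.card : ℝ) ≤ (L : ℝ) ^ 2 * (M : ℝ) ^ κ := by
    have h1 : A1.card ≤ ∑ u ∈ (range L) ×ˢ (range L), (P u).card :=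
      (card_le_card hcov).trans card_biUnion_le
    calc (A1.card : ℝ) ≤ ∑ u ∈ (range L) ×ˢ (range L), ((P u).card : ℝ) := by exact_mod_cast h1
      _ ≤ ∑ _u ∈ (range L) ×ˢ (range L), (M : ℝ) ^ κ := sum_le_sum fun u _ => hpiece u
      _ = (L : ℝ) ^ 2 * (M : ℝ) ^ κ := by
          rw [sum_const, card_product, card_range, nsmul_eq_mul]
          push_cast
          ring
  calc (A.card : ℝ) = 2 / δ * (δ / 2 * (A.card : ℝ)) := by field_simp
    _ ≤ 2 / δ * ((L : ℝ) ^ 2 * (M : ℝ) ^ κ) := by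
        refine mul_le_mul_of_nonneg_left (hA1card.trans hA1le) (by positivity)
    _ = 2 / δ * (L : ℝ) ^ 2 * (M : ℝ) ^ κ := by ring

/-- representatives -/
lemma exists_reps (A : Finset (ℤ × ℤ)) : ∃ A' ⊆ A,
    Set.InjOn (fun p : ℤ × ℤ => p.1 - p.2) (A' : Set (ℤ × ℤ)) ∧
      A'.card = (proj (-1) A).card := by
  classical
  have h1 : ∀ d ∈ proj (-1) A, ∃ p ∈ A, (p.1 : ℚ) + (-1) * (p.2 : ℚ) = d := by
    intro d hd
    exact mem_image.1 hd
  choose! g hg1 hg2 using h1
  refine ⟨(proj (-1) A).image g, ?_, ?_, ?_⟩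
  · intro p hp
    obtain ⟨d, hd, rfl⟩ := mem_image.1 hp
    exact hg1 d hd
  · intro p hp p' hp' hpp
    rw [mem_coe] at hp hp'
    obtain ⟨d, hd, rfl⟩ := mem_image.1 hp
    obtain ⟨d', hd', rfl⟩ := mem_image.1 hp'
    have h2 := hg2 d hd
    have h3 := hg2 d' hd'
    have h4 : (((g d).1 - (g d).2 : ℤ) : ℚ) = (((g d').1 - (g d').2 : ℤ) : ℚ) := by
      simp only at hpp
      rw [hpp]
    push_cast at h4
    have : d = d' := by linarith
    rw [this]
  · refine card_image_of_injOn ?_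
    intro d hd d' hd' hdd
    rw [← hg2 d hd, ← hg2 d' hd', hdd]

/-- the robust form implies the form with a constant -/
lemma const_of_robust {δ : ℝ} (hδ : δ ≤ 1) {S : Finset ℚ} {κ C : ℝ} (h : Robust δ S κ C)
    (A : Finset (ℤ × ℤ)) :
    ((proj (-1) A).card : ℝ) ≤ C * ((S.sup fun r => (proj r A).card : ℕ) : ℝ) ^ κ := by
  classical
  obtain ⟨A', hA', hinj, hcard⟩ := exists_reps A
  rw [← hcard]
  refine h A' (fun r => proj r A) _ hinj (fun r hr => le_sup (f := fun r => (proj r A).card) hr) ?_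
  have : ((A' ×ˢ S).filter fun q : (ℤ × ℤ) × ℚ =>
        (q.1.1 : ℚ) + q.2 * (q.1.2 : ℚ) ∈ proj q.2 A) = A' ×ˢ S := by
    refine filter_true_of_mem fun q hq => ?_
    exact mem_image.2 ⟨q.1, hA' (mem_product.1 hq).1, rfl⟩
  rw [this, card_product]
  push_cast
  have h1 : (0 : ℝ) ≤ (A'.card : ℝ) * S.card := by positivity
  nlinarith

/-- removing the constant by taking powers -/
theorem amplify {S : Finset ℚ} {κ C : ℝ} (hκ : 0 ≤ κ)
    (h : ∀ A : Finset (ℤ × ℤ),
      ((proj (-1) A).card : ℝ) ≤ C * ((S.sup fun r => (proj r A).card : ℕ) : ℝ) ^ κ)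
    (A : Finset (ℤ × ℤ)) :
    ((proj (-1) A).card : ℝ) ≤ ((S.sup fun r => (proj r A).card : ℕ) : ℝ) ^ κ := by
  classical
  obtain ⟨A', hA', hinj, hcard⟩ := exists_reps A
  set M : ℕ := S.sup fun r => (proj r A).card with hM
  set n : ℕ := (proj (-1) A).card with hn
  have hpow : ∀ t : ℕ, (n : ℝ) ^ t ≤ C * ((M : ℝ) ^ κ) ^ t := by
    intro t
    set D : Finset (Fin t → ℤ) := Fintype.piFinset fun _ : Fin t => A'.image fun p => p.1 - p.2
      with hD
    obtain ⟨Q, hQ⟩ := Pool.Agent.W46.KK.exists_hom D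
    set V : Finset (Fin t → ℤ × ℤ) := Fintype.piFinset fun _ : Fin t => A' with hV
    set Φ : (Fin t → ℤ × ℤ) → ℤ × ℤ := fun v =>
      (∑ i, (v i).1 * Q ^ (i : ℕ), ∑ i, (v i).2 * Q ^ (i : ℕ)) with hΦ
    have hVc : V.card = n ^ t := by
      rw [hV, Fintype.card_piFinset, prod_const, card_univ, Fintype.card_fin, hcard]
    have hdiff : ∀ v, (Φ v).1 - (Φ v).2 = ∑ i, ((v i).1 - (v i).2) * Q ^ (i : ℕ) := by
      intro v
      simp only [hΦ, sub_mul, sum_sub_distrib]
    have hinjV : ∀ v ∈ V, ∀ w ∈ V, (Φ v).1 - (Φ v).2 = (Φ w).1 - (Φ w).2 → v = w := by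
      intro v hv w hw hvw
      rw [hdiff, hdiff] at hvw
      have hv' : (fun i => (v i).1 - (v i).2) ∈ D := by
        rw [hD, Fintype.mem_piFinset]
        intro i
        exact mem_image_of_mem (fun p : ℤ × ℤ => p.1 - p.2) (Fintype.mem_piFinset.1 hv i)
      have hw' : (fun i => (w i).1 - (w i).2) ∈ D := by
        rw [hD, Fintype.mem_piFinset]
        intro i
        exact mem_image_of_mem (fun p : ℤ × ℤ => p.1 - p.2) (Fintype.mem_piFinset.1 hw i)
      have h1 := hQ _ hv' _ hw' hvw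
      funext i
      exact hinj (mem_coe.2 (Fintype.mem_piFinset.1 hv i)) (mem_coe.2 (Fintype.mem_piFinset.1 hw i))
        (congrFun h1 i)
    have hcardP : (proj (-1) (V.image Φ)).card = n ^ t := by
      rw [← hVc]
      unfold proj
      rw [image_image]
      refine card_image_of_injOn ?_
      intro v hv w hw hvw
      refine hinjV v hv w hw ?_
      simp only [Function.comp] at hvw
      have h2 : (((Φ v).1 - (Φ v).2 : ℤ) : ℚ) = (((Φ w).1 - (Φ w).2 : ℤ) : ℚ) := by
        push_cast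
        linarith
      exact_mod_cast h2
    have hsup : (S.sup fun r => (proj r (V.image Φ)).card) ≤ M ^ t := by
      refine Finset.sup_le fun r hr => ?_
      have h1 : proj r (V.image Φ) ⊆ (Fintype.piFinset fun _ : Fin t => proj r A).image
          fun z : Fin t → ℚ => ∑ i, z i * (Q : ℚ) ^ (i : ℕ) := by
        intro w hw
        unfold proj at hw
        rw [image_image] at hw
        obtain ⟨v, hv, rfl⟩ := mem_image.1 hw
        refine mem_image.2 ⟨fun i => ((v i).1 : ℚ) + r * ((v i).2 : ℚ), ?_, ?_⟩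
        · rw [Fintype.mem_piFinset]
          intro i
          exact mem_image.2 ⟨v i, hA' (Fintype.mem_piFinset.1 hv i), rfl⟩
        · simp only [Function.comp, hΦ]
          push_cast
          rw [mul_sum, ← sum_add_distrib]
          refine sum_congr rfl fun i _ => ?_
          ring
      refine (card_le_card h1).trans (card_image_le.trans ?_)
      rw [Fintype.card_piFinset, prod_const, card_univ, Fintype.card_fin]
      exact Nat.pow_le_pow_left (le_sup (f := fun r => (proj r A).card) hr) t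
    have h3 := h (V.image Φ)
    rw [hcardP] at h3
    have hC : 0 ≤ C := by
      have h4 := h {(0, 0)}
      have h5 : (proj (-1) {(0, 0)}).card = 1 := by
        unfold proj
        rw [image_singleton, card_singleton]
      rw [h5, Nat.cast_one] at h4
      by_contra hneg
      push Not at hneg
      have h6 : (0 : ℝ) ≤ ((S.sup fun r => (proj r {((0 : ℤ), (0 : ℤ))}).card : ℕ) : ℝ) ^ κ :=
        Real.rpow_nonneg (Nat.cast_nonneg _) _
      nlinarith
    calc (n : ℝ) ^ t = ((n ^ t : ℕ) : ℝ) := by push_cast; rfl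
      _ ≤ C * ((S.sup fun r => (proj r (V.image Φ)).card : ℕ) : ℝ) ^ κ := h3
      _ ≤ C * (((M ^ t : ℕ) : ℝ)) ^ κ := by
          refine mul_le_mul_of_nonneg_left ?_ hC
          exact Real.rpow_le_rpow (Nat.cast_nonneg _) (by exact_mod_cast hsup) hκ
      _ = C * ((M : ℝ) ^ κ) ^ t := by
          congr 1
          push_cast
          rw [← Real.rpow_natCast, ← Real.rpow_natCast, ← Real.rpow_mul (Nat.cast_nonneg _),
            ← Real.rpow_mul (Nat.cast_nonneg _), mul_comm]
  by_contra hcon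
  push Not at hcon
  have hy : (0 : ℝ) ≤ (M : ℝ) ^ κ := Real.rpow_nonneg (Nat.cast_nonneg _) _
  rcases eq_or_lt_of_le hy with h0 | h0
  · have := hpow 1
    rw [← h0] at this hcon
    rw [pow_one, pow_one, mul_zero] at this
    linarith
  · obtain ⟨t, ht⟩ := pow_unbounded_of_one_lt C (show 1 < (n : ℝ) / (M : ℝ) ^ κ by
      rwa [one_lt_div h0])
    rw [div_pow, lt_div_iff₀ (by positivity)] at ht
    have := hpow t
    linarith

end Run7.h605.AKD
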