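import Mathlib
import Pool.Agent.Run7.h605.AKD.Robust

/-! # A constant which does not depend on the number of slopes -/

set_option autoImplicit false

namespace Run7.h605.AKD

open Finset
open Pool.Agent.R470.AK (proj projInf big Bound tm proj_tm int_points fit)

/-- the robust inequality, for subsets -/
def RobustT (δ : ℝ) (S : Finset ℚ) (κ C : ℝ) : Prop :=
  ∀ (A : Finset (ℤ × ℤ)) (T : ℚ → Finset (ℤ × ℤ)) (M : ℕ),
    Set.InjOn (fun p : ℤ × ℤ => p.1 - p.2) (A : Set (ℤ × ℤ)) →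
    (∀ r ∈ S, T r ⊆ A ∧ (proj r (T r)).card ≤ M) →
    δ * ((S.card : ℝ) * (A.card : ℝ)) ≤ ∑ r ∈ S, ((T r).card : ℝ) →
    (A.card : ℝ) ≤ C * (M : ℝ) ^ κ

lemma robustT_of_robust {δ : ℝ} {S : Finset ℚ} {κ C : ℝ} (h : Robust δ S κ C) :
    RobustT δ S κ C := by
  classical
  intro A T M hinj hT hsum
  refine h A (fun r => proj r (T r)) M hinj (fun r hr => (hT r hr).2) ?_
  have h1 : (((A ×ˢ S).filter fun q : (ℤ × ℤ) × ℚ =>
        (q.1.1 : ℚ) + q.2 * (q.1.2 : ℚ) ∈ proj q.2 (T q.2)).card) =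
      ∑ r ∈ S, (A.filter fun z => (z.1 : ℚ) + r * (z.2 : ℚ) ∈ proj r (T r)).card := by
    rw [card_filter, sum_product_right]
    refine sum_congr rfl fun r _ => ?_
    rw [card_filter]
  have h2 : ∑ r ∈ S, ((T r).card : ℝ) ≤ ∑ r ∈ S,
      ((A.filter fun z => (z.1 : ℚ) + r * (z.2 : ℚ) ∈ proj r (T r)).card : ℝ) := by
    refine sum_le_sum fun r hr => ?_
    have : T r ⊆ A.filter fun z => (z.1 : ℚ) + r * (z.2 : ℚ) ∈ proj r (T r) := by
      intro z hz
      exact mem_filter.2 ⟨(hT r hr).1 hz, mem_image.2 ⟨z, hz, rfl⟩⟩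
    exact_mod_cast card_le_card this
  rw [h1]
  push_cast
  rw [mul_comm (A.card : ℝ)]
  exact hsum.trans h2

lemma blocks {L₀ : ℕ} {c : ℝ} (t : ℕ → ℝ) (w : ℕ)
    (h : ∀ u < w, ∑ j ∈ range L₀, t (u * L₀ + j) ≤ c) :
    ∑ j ∈ range (w * L₀), t j ≤ w * c := by
  induction w with
  | zero => simp
  | succ w ih =>
    rw [Nat.succ_mul, sum_range_add]
    have h1 := ih fun u hu => h u (by omega)
    have h2 := h w (by omega)
    push_cast
    linarith

/-- Every attained exponent is attained robustly, with the slopes of any long progression and a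
constant which depends on `δ` only. -/
theorem robust_long {S₀ : Finset ℚ} {κ : ℝ} (hκ : 0 ≤ κ) (h0 : (-1 : ℚ) ∉ S₀)
    (h : Bound S₀ κ) {δ : ℝ} (hδ : 0 < δ) : ∃ (L₀ : ℕ) (C : ℝ), 1 ≤ L₀ ∧ 0 < C ∧
      ∀ L : ℕ, L₀ ≤ L → ∀ (f : ℕ → ℚ) (a b : ℚ), b ≠ 0 →
        (∀ j < L, f j + 1 ≠ 0 ∧ tm (f j) = a + b * j) →
        RobustT δ ((range L).image f) κ C := by
  classical
  obtain ⟨L₁, hL₁, hmain⟩ := robust_of_bound hκ h0 h (show 0 < δ / 2 by positivity)
  have hL₁r : (1 : ℝ) ≤ L₁ := by exact_mod_cast hL₁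
  obtain ⟨L₂, hL₂⟩ := exists_nat_ge (2 * (L₁ : ℝ) / δ)
  refine ⟨max L₁ L₂, 2 / (δ / 2) * (L₁ : ℝ) ^ 2, hL₁.trans (le_max_left _ _), by positivity,
    fun L hL f a b hb hf A T M hinj hT hsum => ?_⟩
  have hLL1 : L₁ ≤ L := (le_max_left _ _).trans hL
  have hLL2 : 2 * (L₁ : ℝ) / δ ≤ L := hL₂.trans (by exact_mod_cast (le_max_right _ _).trans hL)
  have hfinj : Set.InjOn f ((range L : Finset ℕ) : Set ℕ) := by
    intro i hi j hj hij
    rw [mem_coe, mem_range] at hi hj
    have h1 := (hf i hi).2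
    have h2 := (hf j hj).2
    rw [hij, h2] at h1
    have h3 : b * ((j : ℚ) - i) = 0 := by linarith
    rcases mul_eq_zero.1 h3 with h4 | h4
    · exact absurd h4 hb
    · have : (j : ℚ) = i := by linarith
      exact_mod_cast this.symm
  have hScard : ((range L).image f).card = L := by
    rw [card_image_of_injOn hfinj, card_range]
  rw [hScard, sum_image hfinj] at hsum
  rcases A.eq_empty_or_nonempty with rfl | hA
  · rw [card_empty, Nat.cast_zero]
    have := Real.rpow_nonneg (Nat.cast_nonneg (α := ℝ) M) κ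
    positivity
  have hAr : (0 : ℝ) < A.card := by exact_mod_cast card_pos.2 hA
  have hTle : ∀ j < L, ((T (f j)).card : ℝ) ≤ A.card := fun j hj => by
    exact_mod_cast card_le_card (hT (f j) (mem_image_of_mem f (mem_range.2 hj))).1
  -- a good block
  have hblock : ∃ u, (u + 1) * L₁ ≤ L ∧
      δ / 2 * ((L₁ : ℝ) * A.card) ≤ ∑ j ∈ range L₁, ((T (f (u * L₁ + j))).card : ℝ) := by
    by_contra hcon
    push Not at hcon
    set w := L / L₁ with hw
    have hwL : w * L₁ ≤ L := Nat.div_mul_le_self _ _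
    have h1 := blocks (L₀ := L₁) (c := δ / 2 * ((L₁ : ℝ) * A.card))
      (fun j => ((T (f j)).card : ℝ)) w (fun u hu => by
        refine (hcon u ?_).le
        calc (u + 1) * L₁ ≤ w * L₁ := Nat.mul_le_mul_right _ (by omega)
          _ ≤ L := hwL)
    have h2 : ∑ j ∈ range L, ((T (f j)).card : ℝ) =
        ∑ j ∈ range (w * L₁), ((T (f j)).card : ℝ) +
          ∑ j ∈ range (L - w * L₁), ((T (f (w * L₁ + j))).card : ℝ) := by
      rw [← sum_range_add, Nat.add_sub_cancel' hwL]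
    have hrem : L - w * L₁ < L₁ := by
      have h3 := Nat.div_add_mod L L₁
      have h4 := Nat.mod_lt L (show 0 < L₁ by omega)
      rw [mul_comm, ← hw] at h3
      omega
    have h3 : ∑ j ∈ range (L - w * L₁), ((T (f (w * L₁ + j))).card : ℝ) ≤
        (L - w * L₁ : ℕ) * (A.card : ℝ) := by
      calc ∑ j ∈ range (L - w * L₁), ((T (f (w * L₁ + j))).card : ℝ)
          ≤ ∑ _j ∈ range (L - w * L₁), (A.card : ℝ) := sum_le_sum fun j hj =>
            hTle _ (by have := mem_range.1 hj; omega)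
        _ = (L - w * L₁ : ℕ) * (A.card : ℝ) := by
            rw [sum_const, card_range, nsmul_eq_mul]
    have h4 : ((L - w * L₁ : ℕ) : ℝ) < L₁ := by exact_mod_cast hrem
    have h5 : ((L - w * L₁ : ℕ) : ℝ) * (A.card : ℝ) < (L₁ : ℝ) * A.card :=
      mul_lt_mul_of_pos_right h4 hAr
    have h6 : (w : ℝ) * L₁ ≤ L := by exact_mod_cast hwL
    have h7 : (w : ℝ) * (δ / 2 * ((L₁ : ℝ) * A.card)) ≤ δ / 2 * (L * A.card) := by
      calc (w : ℝ) * (δ / 2 * ((L₁ : ℝ) * A.card)) = δ / 2 * ((w * L₁) * A.card) := by ring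
        _ ≤ δ / 2 * (L * A.card) := by gcongr
    have h8 : (L₁ : ℝ) ≤ δ / 2 * L := by
      rw [div_le_iff₀ hδ] at hLL2
      linarith
    have h9 : (L₁ : ℝ) * A.card ≤ δ / 2 * L * A.card := mul_le_mul_of_nonneg_right h8 hAr.le
    have h10 : δ * ((L : ℝ) * A.card) = δ / 2 * (L * A.card) + δ / 2 * L * A.card := by ring
    linarith
  obtain ⟨u, hu, hub⟩ := hblock
  have hlt : ∀ j < L₁, u * L₁ + j < L := by
    intro j hj
    have : (u + 1) * L₁ = u * L₁ + L₁ := by ring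
    omega
  have key := robustT_of_robust (hmain L₁ le_rfl (fun j => f (u * L₁ + j)) (a + b * (u * L₁ : ℕ)) b hb
    (fun j hj => by
      refine ⟨(hf _ (hlt j hj)).1, ?_⟩
      rw [(hf _ (hlt j hj)).2]
      push_cast
      ring))
  have hinj2 : Set.InjOn (fun j => f (u * L₁ + j)) ((range L₁ : Finset ℕ) : Set ℕ) := by
    intro i hi j hj hij
    rw [mem_coe, mem_range] at hi hj
    have := hfinj (mem_coe.2 (mem_range.2 (hlt i hi))) (mem_coe.2 (mem_range.2 (hlt j hj))) hij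
    omega
  refine key A T M hinj ?_ ?_
  · intro r hr
    obtain ⟨j, hj, rfl⟩ := mem_image.1 hr
    exact hT _ (mem_image_of_mem f (mem_range.2 (hlt j (mem_range.1 hj))))
  · rw [card_image_of_injOn hinj2, card_range, sum_image hinj2]
    exact hub

end Run7.h605.AKD
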